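import Mathlib
import Pool.Agent.Q288.MinMax.Data
import Pool.Agent.Q288.MinMax.Fine

/-! # Almost sure convergence of the noisy min-max value on the `d`-ary tree, `d ≥ 3` -/

set_option autoImplicit false

namespace Pool.Agent.Results.MP_63799c_pr.AlmostSure

open MeasureTheory ProbabilityTheory Filter Topology Set Q288.MinMax Q288.MinMax.Large

/-- The value `V_n` of the game of `2 n` moves on the `d`-ary tree with cookies `X`. The vertices
are the lists over `Fin d`, the children of `v` are the lists `v ++ [i]`, and `X u` is the cookie on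
the edge between `u` and its parent. In `value X B m v` the number `m` is the number of levels
below `v`, so that the height of `v` is `2 n - m`, which is even if and only if `m` is. -/
def V {d : ℕ} [NeZero d] (n : ℕ) (X : List (Fin d) → ℤ) : ℤ := value X (fun _ => 0) (2 * n) []

theorem small (d : ℕ) (h3 : 3 ≤ d) (h12 : d ≤ 12) : Num.Good d := by
  have : d = 3 ∨ d = 4 ∨ d = 5 ∨ d = 6 ∨ d = 7 ∨ d = 8 ∨ d = 9 ∨ d = 10 ∨ d = 11 ∨ d = 12 := by
    omega
  rcases this with h | h | h | h | h | h | h | h | h | h <;> subst h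
  · exact Num.good_3
  · exact Num.good_4
  · exact Num.good_5
  · exact Num.good_6
  · exact Num.good_7
  · exact Num.good_8
  · exact Num.good_9
  · exact Num.good_10
  · exact Num.good_11
  · exact Num.good_12

/-- For every `d ≥ 3` the values `V_n` converge almost surely (they are eventually constant). -/
theorem result (d : ℕ) [NeZero d] (hd : 3 ≤ d) {Ω : Type*} [MeasurableSpace Ω] (P : Measure Ω)
    [IsProbabilityMeasure P] (X : List (Fin d) → Ω → ℤ) (hX : ∀ v, Measurable (X v))
    (hind : iIndepFun X P) (hpos : ∀ v, P {ω | X v ω = 1} = 1 / 2)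
    (hneg : ∀ v, P {ω | X v ω = -1} = 1 / 2) :
    ∀ᵐ ω ∂P, ∃ x : ℤ, ∀ᶠ n in atTop, V n (fun v => X v ω) = x := by
  have key : ∀ᵐ ω ∂P, ∃ N, ∀ n ≥ N, value (fun v => X v ω) (fun _ => 0) (2 * n) [] =
      value (fun v => X v ω) (fun _ => 0) (2 * N) [] := by
    rcases le_or_gt d 12 with h12 | h13
    · obtain ⟨s, w0, w1, w2, w3, w4, lam, n0, hlam, hw, hs, hc⟩ := small d hd h12
      obtain ⟨W, hW⟩ : ∃ W : ℕ, ∀ k, Num.wt w0 w1 w2 w3 w4 k ≤ W := by
        refine ⟨w0 + w1 + w2 + w3 + w4, fun k => ?_⟩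
        unfold Num.wt
        split_ifs <;> omega
      have hq : (lam : ℝ) / 1000 < 1 := by
        rw [div_lt_one (by norm_num)]
        exact_mod_cast hlam
      have hq0 : (0 : ℝ) ≤ (lam : ℝ) / 1000 := by positivity
      -- enlarge the rate if it is zero
      obtain ⟨q, hq1⟩ : ∃ q : ℝ, q = max ((lam : ℝ) / 1000) (1 / 2) := ⟨_, rfl⟩
      have q1 : q < 1 := by rw [hq1]; exact max_lt hq (by norm_num)
      have q0 : 0 < q := by rw [hq1]; exact lt_max_of_lt_right (by norm_num)
      refine AS.conv_of_decay (C := (W : ℝ) / q ^ n0) (lam := q) (n0 := n0) q0.le q1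
        (fun n hn k => ?_) P X hX hind hpos hneg
      refine (Num.decay (by norm_num) hs hw hc n hn k).trans ?_
      have h1 : ((lam : ℝ) / 1000) ^ (n - n0) ≤ q ^ (n - n0) :=
        pow_le_pow_left₀ hq0 (by rw [hq1]; exact le_max_left _ _) _
      have h2 : (Num.wt w0 w1 w2 w3 w4 k : ℝ) ≤ W := by exact_mod_cast hW k
      have h3 : q ^ n = q ^ (n - n0) * q ^ n0 := by
        rw [← pow_add]
        congr 1
        omega
      calc ((lam : ℝ) / 1000) ^ (n - n0) * (Num.wt w0 w1 w2 w3 w4 k : ℝ)
          ≤ q ^ (n - n0) * W := mul_le_mul h1 h2 (by positivity) (by positivity)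
        _ = (W : ℝ) / q ^ n0 * q ^ n := by
            rw [h3]
            field_simp
    · exact AS.conv_of_decay (C := 1) (lam := Fine.c d) (n0 := 0) Fine.c_nonneg
        (lt_of_le_of_lt (Fine.c_le h13) (by norm_num)) (fun n _ k => Fine.decay h13 n k)
        P X hX hind hpos hneg
  filter_upwards [key] with ω hω
  obtain ⟨N, hN⟩ := hω
  exact ⟨V N fun v => X v ω, eventually_atTop.2 ⟨N, fun n hn => hN n hn⟩⟩

end Pool.Agent.Results.MP_63799c_pr.AlmostSure
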